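import Pool.Agent.H606.GU.Stm

/-! TASK CMP of project GU (helper606). -/

open MeasureTheory Filter Topology Finset
open Pool.Agent.H606.GU

namespace Pool.Agent.H27.GU.CMP

/-- all the cubes have the same average -/
theorem av_tile (hAV : S_AV) {N : ℕ} (x : Fin N → ℝ) (R : ℝ) (hR : 0 < R) (k : ℕ) (hk : 1 ≤ k)
    (a : ℝ) (i : ℕ) : Av x R (tile k a i) = Av x R (tile k a 0) := by
  haveI : Nonempty (Fin k) := ⟨⟨0, hk⟩⟩
  obtain ⟨-, h2, -⟩ := hAV (Fin k) N x R hR
  rw [← h2 (tile k a 0) (i * a)]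
  congr 1
  ext y
  simp only [tile, Set.mem_setOf_eq, Nat.cast_zero, zero_mul, zero_add, one_mul]
  refine forall_congr' fun l => ?_
  constructor
  · rintro ⟨h1, h2⟩; constructor <;> linarith
  · rintro ⟨h1, h2⟩; constructor <;> linarith

theorem cast_id (n k : ℕ) : ((n.descFactorial k : ℝ)) * (n : ℝ) =
    (n.descFactorial (k + 1) : ℝ) + k * (n.descFactorial k : ℝ) := by
  rcases Nat.lt_or_ge n k with h | h
  · rw [Nat.descFactorial_of_lt h, Nat.descFactorial_of_lt (by omega : n < k + 1)]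
    simp
  · rw [Nat.descFactorial_succ, Nat.cast_mul, Nat.cast_sub h]
    ring

/-- expansion of the integral of the product -/
theorem expand (hAV : S_AV) (hTC : S_TC) (hSETS : S_SETS) {N : ℕ} (x : Fin N → ℝ) (R : ℝ)
    (hR : 0 < R) (k : ℕ) (hk : 1 ≤ k) (a : ℝ) (ha : 0 < a) (M : ℕ) :
    (∫ t : ℝ, FF x a k M t * NN x a M t) / R =
      M * Av x R (tile (k + 1) a 0) + k * M * Av x R (tile k a 0) +
      ∑ i ∈ range M, ∑ i' ∈ range M, (if i = i' then 0 else Av x R (mix k a i i')) := by
  haveI : Nonempty (Fin k) := ⟨⟨0, hk⟩⟩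
  obtain ⟨hA1, -⟩ := hAV (Fin k) N x R hR
  obtain ⟨hB1, -⟩ := hAV (Fin (k + 1)) N x R hR
  obtain ⟨hS1, -, -⟩ := hSETS k a hk ha
  obtain ⟨hS1', -, -⟩ := hSETS (k + 1) a (by omega) ha
  obtain ⟨-, hS2, -⟩ := hSETS k a hk ha
  obtain ⟨hT1, hT2, -⟩ := hTC N x a ha
  have hI1 : ∀ i, Integrable (fun t => ((tc x a i t).descFactorial k : ℝ)) := fun i => by
    have := hA1 (tile k a i) (hS1 i).1 (hS1 i).2.1
    refine this.congr (Eventually.of_forall fun t => ?_)
    simp only []
    rw [hT1]
  have hI2 : ∀ i, Integrable (fun t => ((tc x a i t).descFactorial (k + 1) : ℝ)) := fun i => by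
    have := hB1 (tile (k + 1) a i) (hS1' i).1 (hS1' i).2.1
    refine this.congr (Eventually.of_forall fun t => ?_)
    simp only []
    rw [hT1]
  have hV1 : ∀ i, (∫ t, ((tc x a i t).descFactorial k : ℝ)) / R = Av x R (tile k a 0) := fun i => by
    rw [← av_tile hAV x R hR k hk a i]
    unfold Av
    congr 2
    ext t
    rw [hT1]
  have hV2 : ∀ i, (∫ t, ((tc x a i t).descFactorial (k + 1) : ℝ)) / R =
      Av x R (tile (k + 1) a 0) := fun i => by
    rw [← av_tile hAV x R hR (k + 1) (by omega) a i]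
    unfold Av
    congr 2
    ext t
    rw [hT1]
  -- the general term
  have hG : ∀ i i', Integrable (fun t => ((tc x a i t).descFactorial k : ℝ) * (tc x a i' t : ℝ)) ∧
      (∫ t, ((tc x a i t).descFactorial k : ℝ) * (tc x a i' t : ℝ)) / R =
      (if i = i' then Av x R (tile (k + 1) a 0) + k * Av x R (tile k a 0) else 0) +
      (if i = i' then 0 else Av x R (mix k a i i')) := by
    intro i i'
    by_cases h : i = i'
    · subst h
      simp only [if_true, add_zero]
      have he : (fun t => ((tc x a i t).descFactorial k : ℝ) * (tc x a i t : ℝ)) =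
          fun t => ((tc x a i t).descFactorial (k + 1) : ℝ) +
            k * ((tc x a i t).descFactorial k : ℝ) := by
        ext t; exact cast_id _ _
      constructor
      · rw [he]
        exact (hI2 i).add ((hI1 i).const_mul _)
      · rw [he, integral_add (hI2 i) ((hI1 i).const_mul _), integral_const_mul, add_div, hV2,
          mul_div_assoc, hV1]
    · simp only [h, if_false, zero_add]
      have he : (fun t => ((tc x a i t).descFactorial k : ℝ) * (tc x a i' t : ℝ)) =
          fun t => (cnt x (mix k a i i') t : ℝ) := by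
        ext t
        rw [← hT2 k i i' t h]
        push_cast
        rfl
      constructor
      · rw [he]
        exact hB1 _ (hS2 i i').1 (hS2 i i').2.1
      · rw [he]
        rfl
  have hFN : (fun t => FF x a k M t * NN x a M t) = fun t => ∑ i ∈ range M, ∑ i' ∈ range M,
      ((tc x a i t).descFactorial k : ℝ) * (tc x a i' t : ℝ) := by
    ext t
    unfold FF NN
    rw [Finset.sum_mul_sum]
  rw [hFN, integral_finset_sum _ (fun i _ => integrable_finset_sum _ fun i' _ => (hG i i').1),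
    Finset.sum_div]
  have : ∀ i ∈ range M, (∫ t, ∑ i' ∈ range M,
      ((tc x a i t).descFactorial k : ℝ) * (tc x a i' t : ℝ)) / R =
      (Av x R (tile (k + 1) a 0) + k * Av x R (tile k a 0)) +
      ∑ i' ∈ range M, (if i = i' then 0 else Av x R (mix k a i i')) := by
    intro i hi
    rw [integral_finset_sum _ (fun i' _ => (hG i i').1), Finset.sum_div]
    simp_rw [fun i' => (hG i i').2]
    rw [Finset.sum_add_distrib, Finset.sum_ite_eq, if_pos hi]
  rw [Finset.sum_congr rfl this, Finset.sum_add_distrib, Finset.sum_const, card_range, nsmul_eq_mul]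
  ring

theorem t_CMP (hAV : S_AV) (hTC : S_TC) (hINT : S_INT) (hUPC : S_UPC) (hSETS : S_SETS)
    (hTAIL : S_TAIL) : S_CMP := by
  intro C k a hk ha hU hU1 hCov ε₀ hε₀
  haveI : Nonempty (Fin k) := ⟨⟨0, hk⟩⟩
  obtain ⟨hS1, hS2, -⟩ := hSETS k a hk ha
  obtain ⟨-, -, -, hJ4, -, hJ6⟩ := hINT k a hk ha
  obtain ⟨M0, hM0⟩ := hCov (ε₀ / 3) (by positivity)
  have hT := hTAIL k a hk ha
  have hT' : ∀ᶠ M : ℕ in atTop, tl k a M / M < ε₀ / 3 :=
    hT.eventually (gt_mem_nhds (by positivity))
  obtain ⟨M, ⟨hM1, hM2⟩, hM3⟩ :=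
    ((hT'.and (eventually_ge_atTop M0)).and (eventually_ge_atTop 1)).exists
  have hMpos : (0 : ℝ) < M := by exact_mod_cast hM3
  have htl : tl k a M < ε₀ / 3 * M := by rwa [div_lt_iff₀ hMpos] at hM1
  set ε : ℝ := ε₀ / (3 * (k + M)) with hεdef
  have hkpos : (0 : ℝ) ≤ k := Nat.cast_nonneg k
  have hε : 0 < ε := by positivity
  have hεM : (k + M) * ε = ε₀ / 3 := by
    rw [hεdef]; field_simp
  have hA := hUPC C (Fin k) 1 zero_le_one hU (tile k a 0) (hS1 0).1 (hS1 0).2.1 (hS1 0).2.2 ε hε
  have hB : ∀ᶠ T in atTop, ∀ p ∈ (range M ×ˢ range M : Finset (ℕ × ℕ)),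
      Av (C.x T) (C.R T) (mix k a p.1 p.2) ≤ 1 * (∫ y in mix k a p.1 p.2, rho y) + ε := by
    rw [Filter.eventually_all_finset]
    intro p _
    exact hUPC C (Fin (k + 1)) 1 zero_le_one hU1 (mix k a p.1 p.2) (hS2 _ _).1 (hS2 _ _).2.1
      (hS2 _ _).2.2 ε hε
  filter_upwards [hM0 M hM2, hA, hB, C.hR.eventually_gt_atTop 0] with T h1 h2 h3 hR
  rw [expand hAV hTC hSETS (C.x T) (C.R T) hR k hk a ha M] at h1
  have hk1 : (∫ y in tile k a 0, rho y) = mm k a := rfl
  rw [hk1, one_mul] at h2
  -- the sum over the pairs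
  have hsum : ∑ i ∈ range M, ∑ i' ∈ range M,
      (if i = i' then 0 else Av (C.x T) (C.R T) (mix k a i i')) ≤
      ((M : ℝ) ^ 2 * a * mm k a - k * M * mm k a + tl k a M) - M * mm (k + 1) a + M * (M * ε) := by
    have hle : ∀ i ∈ range M, ∑ i' ∈ range M,
        (if i = i' then 0 else Av (C.x T) (C.R T) (mix k a i i')) ≤
        (∑ i' ∈ range M, ∫ y in mix k a i i', rho y) - mm (k + 1) a + M * ε := by
      intro i hi
      have : ∀ i' ∈ range M, (if i = i' then 0 else Av (C.x T) (C.R T) (mix k a i i')) ≤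
          (∫ y in mix k a i i', rho y) - (if i = i' then mm (k + 1) a else 0) + ε := by
        intro i' hi'
        by_cases h : i = i'
        · subst h
          simp only [if_true, hJ4, sub_self, zero_add]
          exact hε.le
        · simp only [h, if_false, sub_zero]
          have := h3 (i, i') (Finset.mem_product.2 ⟨hi, hi'⟩)
          simpa using this
      refine (Finset.sum_le_sum this).trans (le_of_eq ?_)
      rw [Finset.sum_add_distrib, Finset.sum_sub_distrib, Finset.sum_ite_eq, if_pos hi,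
        Finset.sum_const, card_range, nsmul_eq_mul]
    refine (Finset.sum_le_sum hle).trans (le_of_eq ?_)
    rw [Finset.sum_add_distrib, Finset.sum_sub_distrib, hJ6, Finset.sum_const, Finset.sum_const,
      card_range, nsmul_eq_mul, nsmul_eq_mul]
  have hkM : (k : ℝ) * M * Av (C.x T) (C.R T) (tile k a 0) ≤ k * M * (mm k a + ε) :=
    mul_le_mul_of_nonneg_left h2 (by positivity)
  have hfin : M * (mm (k + 1) a - ε₀) ≤ M * Av (C.x T) (C.R T) (tile (k + 1) a 0) := by
    have e1 : (k : ℝ) * M * ε + M * (M * ε) = M * (ε₀ / 3) := by rw [← hεM]; ring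
    nlinarith [h1, hsum, hkM, htl, e1]
  exact le_of_mul_le_mul_left hfin hMpos

end Pool.Agent.H27.GU.CMP
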